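import Mathlib
import Pool.Agent.R436.Ternary

set_option autoImplicit false

/-!
# Maximal heights of ternary cyclotomic polynomials, `q ≡ 2 / (2 k + 1)` modulo `p`

For primes `2 < p < q` let `M(p; q)` be the maximum of the heights `A(pqr)` of the cyclotomic
polynomials `Φ_{pqr}`, `r > q` prime.  We prove that `M(p; q) = (p + 2 k + 1) / 2` for all `k ≥ 1`
and all primes `p ≥ (2 k + 1)^2 + 4` and `q ≥ p^2` with `(2 k + 1) q ≡ 2` modulo `p`.
-/

open Polynomial

namespace Pool.Agent.Results.MP_b5a0ea_nt.MaxTernaryHeight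

/-- The height `A(n)` of the `n`-th cyclotomic polynomial, the largest absolute value of one of its
coefficients. -/
noncomputable def A (n : ℕ) : ℕ :=
  (Finset.range ((cyclotomic n ℤ).natDegree + 1)).sup fun m => ((cyclotomic n ℤ).coeff m).natAbs

/-- **The maximal height `M(p; q)`.**  Let `k ≥ 1` and let `p ≥ (2 k + 1)^2 + 4` and `q ≥ p^2` be
primes with `(2 k + 1) q ≡ 2` modulo `p`.  Then the maximum of `A(pqr)` over all primes `r > q`
exists and is equal to `(p + 2 k + 1) / 2` (and `p + 2 k + 1` is even). -/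
theorem result (k p q : ℕ) (hk : 1 ≤ k) (hp : p.Prime) (hq : q.Prime)
    (hp0 : (2 * k + 1) ^ 2 + 4 ≤ p) (hq0 : p ^ 2 ≤ q) (hmod : (2 * k + 1) * q ≡ 2 [MOD p]) :
    IsGreatest {h | ∃ r : ℕ, r.Prime ∧ q < r ∧ h = A (p * q * r)} ((p + 2 * k + 1) / 2) ∧
      2 * ((p + 2 * k + 1) / 2) = p + 2 * k + 1 :=
  Pool.Agent.R436.Ternary.isGreatest hk hp hq hp0 hq0 hmod

end Pool.Agent.Results.MP_b5a0ea_nt.MaxTernaryHeight
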